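import Pool.Agent.Helper73.KZ.HUL
import Pool.Agent.Helper40.JZ.Stmts

/-!
The sum over the primes of a block for one fixed prime `q`, for fibres of dimension `s`
(MP_7a8f48_an).
-/

open Finset Filter Topology

namespace Pool.Agent.Helper73.KZ

open Pool.Agent.Helper40.DZ (SK)
open Pool.Agent.Helper40.JZ (LM ST_LMF)

/-- the kernel of a subgroup -/
noncomputable def NS {Γ : Type} [AddCommGroup Γ] (Φ : ℕ → ℕ → Γ → ℝ) (Δ : AddSubgroup Γ)
    (k k' : ℕ) : ℝ := ∑' u : Γ, (Δ : Set Γ).indicator (Φ k k') u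

/-- the hypotheses -/
structure Hyp (C η : ℝ) {s r q : ℕ} (Φ : ℕ → ℕ → (Fin s → ℤ) × (Fin r → ZMod q) → ℝ)
    (N₀ : ℕ → ℕ → ℝ) : Prop where
  nn : ∀ k k' u, 0 ≤ Φ k k' u
  sm : ∀ k k', Summable (Φ k k')
  tot : ∀ k k', ∑' u, Φ k k' u ≤ C
  sk0 : SK N₀
  n0 : ∀ k k', 0 ≤ N₀ k k'
  le0 : ∀ k k', N₀ k k' ≤ Φ k k' 0
  typ : ∀ Δ : AddSubgroup ((Fin s → ℤ) × (Fin r → ZMod q)), Typ Δ →
    SK (NS Φ Δ) ∧ LM (NS Φ Δ) 1 ≤ LM N₀ 1 + η

/-- the average as a linear map -/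
noncomputable def AVl (m H : ℕ) : (ℕ → ℕ → ℝ) →ₗ[ℝ] ℝ where
  toFun N := (∑ h ∈ range H, ∑ h' ∈ range H, N (m * h) (m * h')) / (H : ℝ) ^ 2
  map_add' := by
    intro N N'
    simp only [Pi.add_apply, sum_add_distrib, add_div]
  map_smul' := by
    intro c N
    simp only [Pi.smul_apply, smul_eq_mul, RingHom.id_apply, ← mul_sum, mul_div_assoc]

theorem AVl_apply (m H : ℕ) (N : ℕ → ℕ → ℝ) : AVl m H N =
    (∑ h ∈ range H, ∑ h' ∈ range H, N (m * h) (m * h')) / (H : ℝ) ^ 2 := rfl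

theorem AVl_le (m H : ℕ) (N : ℕ → ℕ → ℝ) (c : ℝ) (hc : 0 ≤ c) (h : ∀ k k', N k k' ≤ c) :
    AVl m H N ≤ c := by
  rw [AVl_apply]
  rcases Nat.eq_zero_or_pos H with h0 | hpos
  · subst h0
    simpa using hc
  · have hH : (0 : ℝ) < (H : ℝ) ^ 2 := by positivity
    rw [div_le_iff₀ hH]
    calc ∑ h ∈ range H, ∑ h' ∈ range H, N (m * h) (m * h') ≤
        ∑ h ∈ range H, ∑ h' ∈ range H, c := sum_le_sum fun _ _ => sum_le_sum fun _ _ => h _ _
      _ = c * (H : ℝ) ^ 2 := by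
        simp only [sum_const, card_range, nsmul_eq_mul]
        ring

theorem AVl_tendsto (hLMF : ST_LMF) {N : ℕ → ℕ → ℝ} (h : SK N) {m : ℕ} (hm : 1 ≤ m) :
    Tendsto (fun H => AVl m H N) atTop (𝓝 (LM N m)) := (hLMF N h).1 m hm

variable {C η : ℝ} {s r q : ℕ} {Φ : ℕ → ℕ → (Fin s → ℤ) × (Fin r → ZMod q) → ℝ}
  {N₀ : ℕ → ℕ → ℝ}

theorem NS_summable (h : Hyp C η Φ N₀) (Δ : AddSubgroup ((Fin s → ℤ) × (Fin r → ZMod q)))
    (k k' : ℕ) : Summable ((Δ : Set ((Fin s → ℤ) × (Fin r → ZMod q))).indicator (Φ k k')) :=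
  (h.sm k k').indicator _

theorem NS_mono (h : Hyp C η Φ N₀) {Δ Δ' : AddSubgroup ((Fin s → ℤ) × (Fin r → ZMod q))}
    (hle : Δ ≤ Δ') (k k' : ℕ) : NS Φ Δ k k' ≤ NS Φ Δ' k k' := by
  refine Summable.tsum_le_tsum (fun u => ?_) (NS_summable h Δ k k') (NS_summable h Δ' k k')
  exact Set.indicator_le_indicator_of_subset hle (fun u => h.nn k k' u) u

theorem NS_le (h : Hyp C η Φ N₀) (Δ : AddSubgroup ((Fin s → ℤ) × (Fin r → ZMod q)))
    (k k' : ℕ) : NS Φ Δ k k' ≤ C := by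
  refine le_trans ?_ (h.tot k k')
  refine Summable.tsum_le_tsum (fun u => ?_) (NS_summable h Δ k k') (h.sm k k')
  exact Set.indicator_le_self' (fun u _ => h.nn k k' u) u

/-- the function without the part of `N₀` -/
noncomputable def Ph (Φ : ℕ → ℕ → (Fin s → ℤ) × (Fin r → ZMod q) → ℝ) (N₀ : ℕ → ℕ → ℝ)
    (k k' : ℕ) (u : (Fin s → ℤ) × (Fin r → ZMod q)) : ℝ :=
  Φ k k' u - (if u = 0 then N₀ k k' else 0)

theorem Ph_nn (h : Hyp C η Φ N₀) (k k' : ℕ) (u) : 0 ≤ Ph Φ N₀ k k' u := by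
  unfold Ph
  split_ifs with h1
  · subst h1
    linarith [h.le0 k k']
  · linarith [h.nn k k' u]

theorem Ph_summable (h : Hyp C η Φ N₀) (k k' : ℕ) : Summable (Ph Φ N₀ k k') :=
  (h.sm k k').sub (summable_of_ne_finset_zero (s := {0}) fun b hb => by
    rw [if_neg (by simpa using hb)])

theorem Ph_tot (h : Hyp C η Φ N₀) (k k' : ℕ) : ∑' u, Ph Φ N₀ k k' u ≤ C := by
  refine le_trans ?_ (h.tot k k')
  refine Summable.tsum_le_tsum (fun u => ?_) (Ph_summable h k k') (h.sm k k')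
  unfold Ph
  split_ifs
  · linarith [h.n0 k k']
  · linarith

theorem NS_sub (h : Hyp C η Φ N₀) (Δ : AddSubgroup ((Fin s → ℤ) × (Fin r → ZMod q)))
    (k k' : ℕ) : NS Φ Δ k k' - N₀ k k' =
      ∑' u, (Δ : Set ((Fin s → ℤ) × (Fin r → ZMod q))).indicator (Ph Φ N₀ k k') u := by
  classical
  have h1 : N₀ k k' = ∑' u : (Fin s → ℤ) × (Fin r → ZMod q), if u = 0 then N₀ k k' else 0 := by
    rw [tsum_ite_eq]
  conv_lhs => rw [h1]
  unfold NS
  rw [← Summable.tsum_sub (NS_summable h Δ k k')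
    (summable_of_ne_finset_zero (s := {0}) fun b hb => by rw [if_neg (by simpa using hb)])]
  refine tsum_congr fun u => ?_
  by_cases hu : u ∈ (Δ : Set ((Fin s → ℤ) × (Fin r → ZMod q)))
  · rw [Set.indicator_of_mem hu, Set.indicator_of_mem hu, Ph]
  · rw [Set.indicator_of_notMem hu, Set.indicator_of_notMem hu, if_neg, sub_zero]
    rintro rfl
    exact hu Δ.zero_mem

/-- pairs of types -/
theorem m5 (hLMF : ST_LMF) (h : Hyp C η Φ N₀) (hC : 0 ≤ C) {ι : Type} (G : Finset ι)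
    (D : ι → AddSubgroup ((Fin s → ℤ) × (Fin r → ZMod q))) (hD : ∀ k ∈ G, Typ (D k)) (Q : ℕ)
    (hQ : 1 ≤ Q) (a : ℝ) :
    2 * a * ∑ k ∈ G, (LM (NS Φ (D k)) Q - LM N₀ Q) - a ^ 2 * C ≤
      ∑ k ∈ G, ∑ l ∈ G, (LM (NS Φ (D k ⊓ D l)) Q - LM N₀ Q) := by
  classical
  have hpt : ∀ i i' : ℕ, 2 * a * ∑ k ∈ G, (NS Φ (D k) i i' - N₀ i i') -
      ∑ k ∈ G, ∑ l ∈ G, (NS Φ (D k ⊓ D l) i i' - N₀ i i') ≤ a ^ 2 * C := by
    intro i i'
    have hS := Ph_summable h i i'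
    simp only [NS_sub h]
    have e1 : ∑ k ∈ G, ∑' u, (D k : Set ((Fin s → ℤ) × (Fin r → ZMod q))).indicator
        (Ph Φ N₀ i i') u = ∑' u, ((G.filter fun k => u ∈ D k).card : ℝ) * Ph Φ N₀ i i' u := by
      rw [← Summable.tsum_finsetSum fun k _ => hS.indicator _]
      refine tsum_congr fun u => ?_
      simp only [Set.indicator_apply, SetLike.mem_coe]
      rw [← sum_filter, sum_const, nsmul_eq_mul]
    have e2 : ∑ k ∈ G, ∑ l ∈ G, ∑' u, ((D k ⊓ D l : AddSubgroup _) :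
        Set ((Fin s → ℤ) × (Fin r → ZMod q))).indicator (Ph Φ N₀ i i') u =
        ∑' u, ((G.filter fun k => u ∈ D k).card : ℝ) ^ 2 * Ph Φ N₀ i i' u := by
      have e3 : ∀ k ∈ G, ∑ l ∈ G, ∑' u, ((D k ⊓ D l : AddSubgroup _) :
          Set ((Fin s → ℤ) × (Fin r → ZMod q))).indicator (Ph Φ N₀ i i') u =
          ∑' u, ∑ l ∈ G, ((D k ⊓ D l : AddSubgroup _) :
          Set ((Fin s → ℤ) × (Fin r → ZMod q))).indicator (Ph Φ N₀ i i') u := fun k _ =>
        (Summable.tsum_finsetSum fun l _ => hS.indicator _).symm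
      rw [sum_congr rfl e3, ← Summable.tsum_finsetSum fun k _ =>
        summable_sum fun l _ => hS.indicator _]
      refine tsum_congr fun u => ?_
      have e4 : ∀ k ∈ G, ∀ l ∈ G, ((D k ⊓ D l : AddSubgroup _) :
          Set ((Fin s → ℤ) × (Fin r → ZMod q))).indicator (Ph Φ N₀ i i') u =
          (if u ∈ D k then 1 else 0) * ((if u ∈ D l then 1 else 0) * Ph Φ N₀ i i' u) := by
        intro k _ l _
        simp only [Set.indicator_apply, SetLike.mem_coe, AddSubgroup.mem_inf]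
        by_cases h1 : u ∈ D k <;> by_cases h2 : u ∈ D l <;> simp [h1, h2]
      rw [sum_congr rfl fun k hk => sum_congr rfl fun l hl => e4 k hk l hl]
      simp only [← mul_sum, ← sum_mul]
      have e5 : (∑ l ∈ G, if u ∈ D l then (1 : ℝ) else 0) =
          ((G.filter fun k => u ∈ D k).card : ℝ) := by
        rw [← sum_filter, sum_const, nsmul_eq_mul, mul_one]
      rw [e5]
      ring
    rw [e1, e2, ← tsum_mul_left]
    have hcard : ∀ u, ((G.filter fun k => u ∈ D k).card : ℝ) ≤ G.card := fun u => by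
      exact_mod_cast card_filter_le _ _
    have s1 : Summable fun u => ((G.filter fun k => u ∈ D k).card : ℝ) * Ph Φ N₀ i i' u := by
      refine Summable.of_nonneg_of_le (fun u => mul_nonneg (by positivity) (Ph_nn h i i' u))
        (fun u => ?_) (hS.mul_left (G.card : ℝ))
      exact mul_le_mul_of_nonneg_right (hcard u) (Ph_nn h i i' u)
    have s2 : Summable fun u => ((G.filter fun k => u ∈ D k).card : ℝ) ^ 2 *
        Ph Φ N₀ i i' u := by
      refine Summable.of_nonneg_of_le (fun u => mul_nonneg (by positivity) (Ph_nn h i i' u))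
        (fun u => ?_) (hS.mul_left ((G.card : ℝ) ^ 2))
      exact mul_le_mul_of_nonneg_right (pow_le_pow_left₀ (by positivity) (hcard u) 2)
        (Ph_nn h i i' u)
    rw [← Summable.tsum_sub (s1.mul_left _) s2]
    calc ∑' u, (2 * a * (((G.filter fun k => u ∈ D k).card : ℝ) * Ph Φ N₀ i i' u) -
        ((G.filter fun k => u ∈ D k).card : ℝ) ^ 2 * Ph Φ N₀ i i' u)
        ≤ ∑' u, a ^ 2 * Ph Φ N₀ i i' u := by
          refine Summable.tsum_le_tsum (fun u => ?_) ((s1.mul_left _).sub s2) (hS.mul_left _)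
          nlinarith [mul_nonneg (sq_nonneg (((G.filter fun k => u ∈ D k).card : ℝ) - a))
            (Ph_nn h i i' u)]
      _ = a ^ 2 * ∑' u, Ph Φ N₀ i i' u := tsum_mul_left
      _ ≤ a ^ 2 * C := mul_le_mul_of_nonneg_left (Ph_tot h i i') (sq_nonneg a)
  have hI : ∀ k ∈ G, ∀ l ∈ G, Typ (D k ⊓ D l) := fun k hk l _ x hx => hD k hk x hx.1
  have hav : ∀ H : ℕ, 2 * a * ∑ k ∈ G, (AVl Q H (NS Φ (D k)) - AVl Q H N₀) -
      ∑ k ∈ G, ∑ l ∈ G, (AVl Q H (NS Φ (D k ⊓ D l)) - AVl Q H N₀) ≤ a ^ 2 * C := by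
    intro H
    have h3 := AVl_le Q H ((2 * a) • ∑ k ∈ G, (NS Φ (D k) - N₀) -
      ∑ k ∈ G, ∑ l ∈ G, (NS Φ (D k ⊓ D l) - N₀)) (a ^ 2 * C) (by positivity) (by
        intro k k'
        have := hpt k k'
        simpa only [Pi.sub_apply, Pi.smul_apply, smul_eq_mul, Finset.sum_apply] using this)
    simpa only [map_sub, map_smul, map_sum, smul_eq_mul] using h3
  have hlim : Tendsto (fun H : ℕ => 2 * a * ∑ k ∈ G, (AVl Q H (NS Φ (D k)) - AVl Q H N₀) -
      ∑ k ∈ G, ∑ l ∈ G, (AVl Q H (NS Φ (D k ⊓ D l)) - AVl Q H N₀)) atTop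
      (𝓝 (2 * a * ∑ k ∈ G, (LM (NS Φ (D k)) Q - LM N₀ Q) -
        ∑ k ∈ G, ∑ l ∈ G, (LM (NS Φ (D k ⊓ D l)) Q - LM N₀ Q))) := by
    refine Tendsto.sub (Tendsto.const_mul _ (tendsto_finsetSum _ fun k hk => ?_))
      (tendsto_finsetSum _ fun k hk => tendsto_finsetSum _ fun l hl => ?_)
    · exact (AVl_tendsto hLMF (h.typ _ (hD k hk)).1 hQ).sub (AVl_tendsto hLMF h.sk0 hQ)
    · exact (AVl_tendsto hLMF (h.typ _ (hI k hk l hl)).1 hQ).sub (AVl_tendsto hLMF h.sk0 hQ)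
  have := le_of_tendsto' hlim hav
  linarith

theorem LM_mono (hLMF : ST_LMF) (h : Hyp C η Φ N₀)
    {Δ Δ' : AddSubgroup ((Fin s → ℤ) × (Fin r → ZMod q))} (h1 : Typ Δ) (h2 : Typ Δ')
    (hle : Δ ≤ Δ') {m : ℕ} (hm : 1 ≤ m) : LM (NS Φ Δ) m ≤ LM (NS Φ Δ') m :=
  (hLMF _ (h.typ Δ h1).1).2.2.2.2 _ (h.typ Δ' h2).1 (NS_mono h hle) m hm

theorem LM_le (hLMF : ST_LMF) (h : Hyp C η Φ N₀) (hC : 0 ≤ C)
    {Δ : AddSubgroup ((Fin s → ℤ) × (Fin r → ZMod q))} (h1 : Typ Δ) {m : ℕ} (hm : 1 ≤ m) :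
    LM (NS Φ Δ) m ≤ C :=
  le_of_tendsto' (AVl_tendsto hLMF (h.typ Δ h1).1 hm) fun H =>
    AVl_le m H _ C hC (NS_le h Δ)

theorem LM_nonneg (hLMF : ST_LMF) (h : Hyp C η Φ N₀) {m : ℕ} (hm : 1 ≤ m) : 0 ≤ LM N₀ m := by
  refine ge_of_tendsto' (AVl_tendsto hLMF h.sk0 hm) fun H => ?_
  rw [AVl_apply]
  exact div_nonneg (sum_nonneg fun _ _ => sum_nonneg fun _ _ => h.n0 _ _) (by positivity)

/-- few pairwise coprime numbers have an excess -/
theorem excess (hLMF : ST_LMF) {N : ℕ → ℕ → ℝ} (hN : SK N) {ι : Type} (I : Finset ι)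
    (Q : ι → ℕ) (h2 : ∀ k ∈ I, 2 ≤ Q k) (hco : ∀ k ∈ I, ∀ l ∈ I, k ≠ l → Nat.Coprime (Q k) (Q l))
    (δ : ℝ) (hδ : ∀ k ∈ I, LM N 1 + δ ≤ LM N (Q k)) : (I.card : ℝ) * δ ≤ N 0 0 := by
  classical
  have hinj : Set.InjOn Q I := by
    intro k hk l hl hkl
    by_contra hne
    have h3 := hco k hk l hl hne
    rw [hkl, Nat.coprime_self] at h3
    have := h2 l hl
    omega
  have h4 := (hLMF N hN).2.2.1 (I.image Q) (by
      intro x hx
      obtain ⟨k, hk, rfl⟩ := mem_image.mp hx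
      exact h2 k hk) (by
      intro x hx y hy hxy
      obtain ⟨k, hk, rfl⟩ := mem_image.mp hx
      obtain ⟨l, hl, rfl⟩ := mem_image.mp hy
      exact hco k hk l hl fun h => hxy (by rw [h]))
  rw [sum_image hinj] at h4
  refine le_trans ?_ h4
  calc (I.card : ℝ) * δ = ∑ k ∈ I, δ := by rw [sum_const, nsmul_eq_mul]
    _ ≤ ∑ k ∈ I, (LM N (Q k) - LM N 1) := sum_le_sum fun k hk => by
      have := hδ k hk
      linarith

/-- a pair of types in a group with a large common mass -/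
theorem pair (hLMF : ST_LMF) (h : Hyp C η Φ N₀) (hC : 0 ≤ C) {ι : Type} [DecidableEq ι]
    (G : Finset ι) (D : ι → AddSubgroup ((Fin s → ℤ) × (Fin r → ZMod q)))
    (hD : ∀ k ∈ G, Typ (D k)) (Q : ℕ) (hQ : 1 ≤ Q) (ε : ℝ) (hε : 0 < ε)
    (hG : 8 * (C + 1) ^ 2 / ε ^ 2 < (G.card : ℝ))
    (hGD : ∀ k ∈ G, LM N₀ 1 + ε ≤ LM (NS Φ (D k)) Q) (h0 : LM N₀ Q ≤ LM N₀ 1 + ε / 2) :
    ∃ k ∈ G, ∃ l ∈ G, k ≠ l ∧ LM N₀ 1 + ε ^ 2 / (8 * (C + 1)) ≤ LM (NS Φ (D k ⊓ D l)) Q := by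
  by_contra hcon
  push Not at hcon
  set K : ℝ := (G.card : ℝ) with hK
  have hC1 : 0 < C + 1 := by linarith
  have hKpos : 0 < K := lt_of_le_of_lt (by positivity) hG
  have hmono : LM N₀ 1 ≤ LM N₀ Q := by
    have := (hLMF _ h.sk0).2.1 1 Q le_rfl hQ
    rwa [one_mul] at this
  have h1 := m5 hLMF h hC G D hD Q hQ (K * (ε / 2) / (C + 1))
  have h2 : K * (ε / 2) ≤ ∑ k ∈ G, (LM (NS Φ (D k)) Q - LM N₀ Q) := by
    calc K * (ε / 2) = ∑ k ∈ G, (ε / 2) := by rw [sum_const, nsmul_eq_mul]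
      _ ≤ _ := sum_le_sum fun k hk => by
        have := hGD k hk
        linarith
  have h3 : ∑ k ∈ G, ∑ l ∈ G, (LM (NS Φ (D k ⊓ D l)) Q - LM N₀ Q) ≤
      K * (C + 1) + K ^ 2 * (ε ^ 2 / (8 * (C + 1))) := by
    have h4 : ∀ k ∈ G, ∑ l ∈ G, (LM (NS Φ (D k ⊓ D l)) Q - LM N₀ Q) ≤
        (C + 1) + K * (ε ^ 2 / (8 * (C + 1))) := by
      intro k hk
      calc ∑ l ∈ G, (LM (NS Φ (D k ⊓ D l)) Q - LM N₀ Q) ≤
          ∑ l ∈ G, ((if k = l then (C + 1) else 0) + ε ^ 2 / (8 * (C + 1))) := by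
            refine sum_le_sum fun l hl => ?_
            split_ifs with hkl
            · have h5 : Typ (D k ⊓ D l) := fun x hx => hD k hk x hx.1
              have h6 := LM_le hLMF h hC h5 hQ
              have h7 := LM_nonneg hLMF h hQ
              have : 0 ≤ ε ^ 2 / (8 * (C + 1)) := by positivity
              linarith
            · have := hcon k hk l hl hkl
              linarith
        _ = (C + 1) + K * (ε ^ 2 / (8 * (C + 1))) := by
          rw [sum_add_distrib, sum_ite_eq, if_pos hk, sum_const, nsmul_eq_mul]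
    calc ∑ k ∈ G, ∑ l ∈ G, (LM (NS Φ (D k ⊓ D l)) Q - LM N₀ Q) ≤
        ∑ k ∈ G, ((C + 1) + K * (ε ^ 2 / (8 * (C + 1)))) := sum_le_sum h4
      _ = K * (C + 1) + K ^ 2 * (ε ^ 2 / (8 * (C + 1))) := by
        rw [sum_const, nsmul_eq_mul]
        ring
  have h8 : 2 * (K * (ε / 2) / (C + 1)) * (K * (ε / 2)) - (K * (ε / 2) / (C + 1)) ^ 2 * C ≤
      K * (C + 1) + K ^ 2 * (ε ^ 2 / (8 * (C + 1))) := by
    refine le_trans ?_ (h1.trans h3)
    have : 0 ≤ 2 * (K * (ε / 2) / (C + 1)) := by positivity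
    nlinarith [mul_le_mul_of_nonneg_left h2 this]
  have h9 : (K * (ε / 2) / (C + 1)) ^ 2 * C ≤ (K * (ε / 2)) ^ 2 / (C + 1) := by
    rw [div_pow, div_mul_eq_mul_div, div_le_div_iff₀ (by positivity) hC1]
    have : C * (C + 1) ≤ (C + 1) ^ 2 := by nlinarith
    calc (K * (ε / 2)) ^ 2 * C * (C + 1) = (K * (ε / 2)) ^ 2 * (C * (C + 1)) := by ring
      _ ≤ (K * (ε / 2)) ^ 2 * (C + 1) ^ 2 := mul_le_mul_of_nonneg_left this (by positivity)
  have h10 : 2 * (K * (ε / 2) / (C + 1)) * (K * (ε / 2)) = 2 * ((K * (ε / 2)) ^ 2 / (C + 1)) := by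
    ring
  have h11 : (K * (ε / 2)) ^ 2 / (C + 1) ≤ K * (C + 1) + K ^ 2 * (ε ^ 2 / (8 * (C + 1))) := by
    linarith
  have h12 : (K * (ε / 2)) ^ 2 / (C + 1) = 2 * (K ^ 2 * (ε ^ 2 / (8 * (C + 1)))) := by
    field_simp
    ring
  have h13 : K ^ 2 * (ε ^ 2 / (8 * (C + 1))) ≤ K * (C + 1) := by linarith
  rw [div_lt_iff₀ (by positivity)] at hG
  have h14 : K ^ 2 * (ε ^ 2 / (8 * (C + 1))) = K * (K * ε ^ 2) / (8 * (C + 1)) := by ring
  rw [h14, div_le_iff₀ (by positivity)] at h13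
  have h15 : K * (8 * (C + 1) ^ 2) < K * (K * ε ^ 2) := mul_lt_mul_of_pos_left hG hKpos
  nlinarith

/-- the induction on the number of coordinates which are not constant -/
theorem fam (hLMF : ST_LMF) (s r : ℕ) (C : ℝ) (hC : 0 ≤ C) (Jc : Finset (Fin s × Fin r)) :
    ∀ ε : ℝ, 0 < ε → ∃ (n : ℕ) (η : ℝ), 0 < η ∧
      ∀ (q : ℕ) (Φ : ℕ → ℕ → (Fin s → ℤ) × (Fin r → ZMod q) → ℝ) (N₀ : ℕ → ℕ → ℝ),
      q.Prime → Hyp C η Φ N₀ → ∀ (ι : Type) (I : Finset ι) (Q : ι → ℕ)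
        (t : ι → Fin s → Fin r → QZ), (∀ k ∈ I, 2 ≤ Q k) →
        (∀ k ∈ I, ∀ l ∈ I, k ≠ l → Nat.Coprime (Q k) (Q l)) →
        (∀ k ∈ I, ∀ i j, ∃ e : ℕ, q ^ e • t k i j = 0) →
        (∀ k ∈ I, ∀ l ∈ I, ∀ i j, (i, j) ∉ Jc → t k i j = t l i j) →
        (∀ k ∈ I, LM N₀ 1 + ε ≤ LM (NS Φ (Kt q (t k))) (Q k)) → I.card < n := by
  classical
  induction Jc using Finset.induction_on with
  | empty =>
    intro ε hε
    refine ⟨⌊2 * C / ε⌋₊ + 1, ε / 2, by positivity, ?_⟩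
    intro q Φ N₀ hq h ι I Q t h2 hco _ hag hI
    rcases I.eq_empty_or_nonempty with h0 | ⟨k₀, hk₀⟩
    · rw [h0]
      simp
    · have hall : ∀ k ∈ I, t k = t k₀ := by
        intro k hk
        funext i j
        exact hag k hk k₀ hk₀ i j (by simp)
      have hT := h.typ (Kt q (t k₀)) (Kt_typ hq.one_lt.le _)
      have h3 := excess hLMF hT.1 I Q h2 hco (ε / 2) (by
        intro k hk
        have h4 := hI k hk
        rw [hall k hk] at h4
        linarith [hT.2])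
      have h5 : (I.card : ℝ) * (ε / 2) ≤ C := h3.trans (NS_le h _ 0 0)
      have h6 : (I.card : ℝ) ≤ 2 * C / ε := by
        rw [le_div_iff₀ hε]
        linarith
      have h7 : I.card ≤ ⌊2 * C / ε⌋₊ := Nat.le_floor h6
      omega
  | insert j0 Jc hj0 ih =>
    intro ε hε
    have hC1 : 0 < C + 1 := by linarith
    obtain ⟨n', η, hη, IH⟩ := ih (ε ^ 2 / (8 * (C + 1))) (by positivity)
    obtain ⟨K, hK⟩ := exists_nat_gt (8 * (C + 1) ^ 2 / ε ^ 2)
    have hK1 : 1 ≤ K := by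
      have : (0 : ℝ) < K := lt_of_le_of_lt (by positivity) hK
      exact_mod_cast this
    set B : ℕ := ⌊2 * C / ε⌋₊ + 1 with hB
    set n₁ : ℕ := n' + B with hn₁
    refine ⟨(n₁ * K) ^ (n₁ * K), η, hη, ?_⟩
    intro q Φ N₀ hq h ι I Q t h2 hco htor hag hI
    by_contra hcon
    push Not at hcon
    have hn1 : 1 ≤ n₁ := by omega
    have hIne : I.Nonempty := by
      rw [← card_pos]
      exact lt_of_lt_of_le (pow_pos (Nat.mul_pos hn1 hK1) _) hcon
    obtain ⟨k₀, hk₀⟩ := hIne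
    -- the coordinate
    let x : ι → QZ := fun k => if k ∈ I then t k j0.1 j0.2 else 0
    have hx : ∀ k ∈ I, x k = t k j0.1 j0.2 := fun k hk => if_pos hk
    have hxt : ∀ k, ∃ e : ℕ, q ^ e • x k = 0 := by
      intro k
      by_cases hk : k ∈ I
      · rw [hx k hk]
        exact htor k hk _ _
      · exact ⟨0, by simp [x, hk]⟩
    have hsubt : ∀ y z : QZ, (∃ e : ℕ, q ^ e • y = 0) → (∃ e : ℕ, q ^ e • z = 0) →
        ∃ e : ℕ, q ^ e • (y - z) = 0 := by
      rintro y z ⟨e, he⟩ ⟨e', he'⟩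
      exact ⟨max e e', by rw [smul_sub, pow_smul_of_le (le_max_left _ _) he,
        pow_smul_of_le (le_max_right _ _) he', sub_zero]⟩
    obtain ⟨A, hAI, hAc, b, hb, hAb⟩ := ult (fun k l => exq q (x k - x l))
      (fun i => by
        have : exq q (x i - x i) ≤ 0 := exq_le (by simp)
        omega)
      (fun i j => by
        show exq q (x i - x j) = exq q (x j - x i)
        rw [← exq_neg, neg_sub])
      (fun i j k => by
        show exq q (x i - x k) ≤ max (exq q (x i - x j)) (exq q (x j - x k))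
        have h3 : x i - x k = (x i - x j) + (x j - x k) := by abel
        rw [h3]
        exact exq_add (hsubt _ _ (hxt i) (hxt j)) (hsubt _ _ (hxt j) (hxt k)))
      (n₁ * K) (Nat.mul_pos hn1 hK1) I hcon
    -- the groups
    have hcd : Fintype.card (Fin n₁ × Fin K) = A.card := by simp [hAc]
    let e : Fin n₁ × Fin K ≃ A := Fintype.equivOfCardEq (by simpa using hcd)
    let g : Fin n₁ → Fin K → ι := fun i c => (e (i, c) : ι)
    have hgA : ∀ i c, g i c ∈ A := fun i c => (e (i, c)).2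
    have hgi : ∀ i c i' c', g i c = g i' c' → i = i' ∧ c = c' := by
      intro i c i' c' hh
      have h3 : e (i, c) = e (i', c') := Subtype.ext hh
      exact Prod.ext_iff.mp (e.injective h3)
    let G : Fin n₁ → Finset ι := fun i => univ.image (g i)
    have hGA : ∀ i, ∀ k ∈ G i, k ∈ A := by
      intro i k hk
      obtain ⟨c, -, rfl⟩ := mem_image.mp hk
      exact hgA i c
    have hGc : ∀ i, (G i).card = K := by
      intro i
      rw [card_image_of_injective _ (fun c c' hh => (hgi i c i c' hh).2)]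
      simp
    let QG : Fin n₁ → ℕ := fun i => ∏ k ∈ G i, Q k
    have hQpos : ∀ i, 1 ≤ QG i := fun i => Nat.one_le_iff_ne_zero.mpr
      (prod_ne_zero_iff.mpr fun k hk => by
        have := h2 k (hAI (hGA i k hk))
        omega)
    have hQdvd : ∀ i, ∀ k ∈ G i, Q k ∣ QG i := fun i k hk => dvd_prod_of_mem Q hk
    have hQ2 : ∀ i, 2 ≤ QG i := by
      intro i
      have h3 : g i ⟨0, hK1⟩ ∈ G i := mem_image_of_mem _ (mem_univ _)
      exact (h2 _ (hAI (hGA i _ h3))).trans (Nat.le_of_dvd (hQpos i) (hQdvd i _ h3))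
    have hQco : ∀ i i', i ≠ i' → Nat.Coprime (QG i) (QG i') := by
      intro i i' hii
      refine Nat.Coprime.prod_left fun k hk => Nat.Coprime.prod_right fun l hl => ?_
      refine hco k (hAI (hGA i k hk)) l (hAI (hGA i' l hl)) ?_
      rintro rfl
      obtain ⟨c, -, hc⟩ := mem_image.mp hk
      obtain ⟨c', -, hc'⟩ := mem_image.mp hl
      exact hii (hgi i c i' c' (hc.trans hc'.symm)).1
    -- the bad groups
    let bad : Finset (Fin n₁) := univ.filter fun i => LM N₀ 1 + ε / 2 < LM N₀ (QG i)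
    have hbad : bad.card < B := by
      have h3 := excess hLMF h.sk0 bad QG (fun i _ => hQ2 i) (fun i _ i' _ hii => hQco i i' hii)
        (ε / 2) (fun i hi => (mem_filter.mp hi).2.le)
      have h4 : N₀ 0 0 ≤ C := by
        refine (h.le0 0 0).trans (le_trans ?_ (h.tot 0 0))
        exact (h.sm 0 0).le_tsum 0 fun u _ => h.nn 0 0 u
      have h5 : (bad.card : ℝ) ≤ 2 * C / ε := by
        rw [le_div_iff₀ hε]
        linarith
      have h6 : bad.card ≤ ⌊2 * C / ε⌋₊ := Nat.le_floor h5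
      omega
    let good : Finset (Fin n₁) := univ.filter fun i => ¬ LM N₀ 1 + ε / 2 < LM N₀ (QG i)
    have hgood : n' ≤ good.card := by
      have h3 : bad.card + good.card = n₁ := by
        have := card_filter_add_card_filter_not (s := (univ : Finset (Fin n₁)))
          (fun i => LM N₀ 1 + ε / 2 < LM N₀ (QG i))
        rw [card_univ, Fintype.card_fin] at this
        exact this
      omega
    -- the new family
    have hnew : ∀ i : Fin n₁, ∃ t' : Fin s → Fin r → QZ, i ∈ good →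
        (∀ a c, ∃ e : ℕ, q ^ e • t' a c = 0) ∧
        (∀ a c, (a, c) ∉ Jc → t' a c = if (a, c) = j0 then x b else t k₀ a c) ∧
        LM N₀ 1 + ε ^ 2 / (8 * (C + 1)) ≤ LM (NS Φ (Kt q t')) (QG i) := by
      intro i
      by_cases hi : i ∈ good
      · have h3 : LM N₀ (QG i) ≤ LM N₀ 1 + ε / 2 := not_lt.mp (mem_filter.mp hi).2
        obtain ⟨k, hk, l, hl, hkl, hLM⟩ := pair hLMF h hC (G i) (fun k => Kt q (t k))
          (fun k _ => Kt_typ hq.one_lt.le _) (QG i) (hQpos i) ε hε (by rw [hGc]; exact hK)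
          (fun k hk => by
            refine (hI k (hAI (hGA i k hk))).trans ?_
            obtain ⟨m, hm⟩ := hQdvd i k hk
            rw [hm]
            refine (hLMF _ (h.typ _ (Kt_typ hq.one_lt.le _)).1).2.1 _ _ ?_ ?_
            · have := h2 k (hAI (hGA i k hk))
              omega
            · rcases Nat.eq_zero_or_pos m with h0 | h0
              · rw [h0, mul_zero] at hm
                have := hQpos i
                omega
              · exact h0) h3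
        have hkI := hAI (hGA i k hk)
        have hlI := hAI (hGA i l hl)
        obtain ⟨α, hα⟩ := exq_cyc hq (x := x k - x b) (y := x k - x l)
          (hsubt _ _ (hxt k) (hxt b)) (hsubt _ _ (hxt k) (hxt l))
          (hAb k (hGA i k hk) l (hGA i l hl) hkl)
        refine ⟨fun a c => t k a c - α • (t k a c - t l a c), fun _ => ⟨?_, ?_, ?_⟩⟩
        · intro a c
          refine hsubt _ _ (htor k hkI a c) ?_
          obtain ⟨e, he⟩ := hsubt _ _ (htor k hkI a c) (htor l hlI a c)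
          exact ⟨e, by rw [smul_comm, he, smul_zero]⟩
        · intro a c hac
          split_ifs with hac'
          · rw [← hac'] at hx
            show t k a c - α • (t k a c - t l a c) = x b
            rw [← hx k hkI, ← hx l hlI, ← hα]
            abel
          · have hnot : (a, c) ∉ insert j0 Jc := by
              simp only [mem_insert, not_or]
              exact ⟨hac', hac⟩
            show t k a c - α • (t k a c - t l a c) = t k₀ a c
            rw [hag k hkI l hlI a c hnot, sub_self, smul_zero, sub_zero,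
              hag l hlI k₀ hk₀ a c hnot]
        · refine hLM.trans (LM_mono hLMF h ?_ (Kt_typ hq.one_lt.le _) (Kt_comb _ _ _) (hQpos i))
          intro y hy
          exact Kt_typ hq.one_lt.le _ y hy.1
      · exact ⟨0, fun h' => absurd h' hi⟩
    choose t' ht' using hnew
    have hfin := IH q Φ N₀ hq h (Fin n₁) good QG t' (fun i _ => hQ2 i)
      (fun i _ i' _ hii => hQco i i' hii) (fun i hi => (ht' i hi).1)
      (fun i hi i' hi' a c hac => by
        rw [(ht' i hi).2.1 a c hac, (ht' i' hi').2.1 a c hac])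
      (fun i hi => (ht' i hi).2.2)
    omega

/-- CLS: the sum over the primes of a block for one fixed prime `q`. -/
def ST_CLSs : Prop := ∀ (s r : ℕ) (ε C : ℝ), 0 < ε → 0 ≤ C → ∃ (n : ℕ) (η : ℝ), 0 < η ∧
  ∀ (q : ℕ) (Φ : ℕ → ℕ → (Fin s → ℤ) × (Fin r → ZMod q) → ℝ) (N₀ : ℕ → ℕ → ℝ) (P : Finset ℕ)
    (Δ : ℕ → AddSubgroup ((Fin s → ℤ) × (Fin r → ZMod q))), q.Prime → Hyp C η Φ N₀ →
    (∀ p ∈ P, p.Prime) → (∀ p ∈ P, Typ (Δ p)) →
    ∑ p ∈ P, (LM (NS Φ (Δ p)) p - LM N₀ p) ≤ ε * P.card + n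

theorem st_CLSs (hLMF : ST_LMF) : ST_CLSs := by
  classical
  intro s r ε C hε hC
  obtain ⟨n, η, hη, hfam⟩ := fam hLMF s r C hC univ ε hε
  obtain ⟨m, hm⟩ := exists_nat_ge ((n : ℝ) * C)
  refine ⟨m, η, hη, ?_⟩
  intro q Φ N₀ P Δ hq h hP hΔ
  have hhull : ∀ p : ℕ, ∃ t : Fin s → Fin r → QZ, p ∈ P →
      (∀ i j, ∃ e : ℕ, q ^ e • t i j = 0) ∧ Δ p ≤ Kt q t := by
    intro p
    by_cases hp : p ∈ P
    · obtain ⟨t, ht⟩ := hull hq (Δ p) (hΔ p hp)
      exact ⟨t, fun _ => ht⟩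
    · exact ⟨0, fun h' => absurd h' hp⟩
  choose t ht using hhull
  let bad : Finset ℕ := P.filter fun p => LM N₀ 1 + ε ≤ LM (NS Φ (Kt q (t p))) p
  have hbP : bad ⊆ P := filter_subset _ _
  have hbad : bad.card < n := hfam q Φ N₀ hq h ℕ bad (fun p => p) t
    (fun p hp => (hP p (hbP hp)).two_le)
    (fun p hp l hl hpl => (Nat.coprime_primes (hP p (hbP hp)) (hP l (hbP hl))).mpr hpl)
    (fun p hp => (ht p (hbP hp)).1) (fun _ _ _ _ i j hij => absurd (mem_univ _) hij)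
    (fun p hp => (mem_filter.mp hp).2)
  have h1 : ∀ p ∈ P, LM (NS Φ (Δ p)) p - LM N₀ p ≤ ε + if p ∈ bad then C else 0 := by
    intro p hp
    have hp1 : 1 ≤ p := (hP p hp).one_lt.le
    have hmono : LM N₀ 1 ≤ LM N₀ p := by
      have := (hLMF _ h.sk0).2.1 1 p le_rfl hp1
      rwa [one_mul] at this
    split_ifs with hb
    · have h3 := LM_le hLMF h hC (hΔ p hp) hp1
      have h4 := LM_nonneg hLMF h hp1
      linarith
    · have h5 : ¬ LM N₀ 1 + ε ≤ LM (NS Φ (Kt q (t p))) p := fun h' =>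
        hb (mem_filter.mpr ⟨hp, h'⟩)
      have h6 := LM_mono hLMF h (hΔ p hp) (Kt_typ hq.one_lt.le _) (ht p hp).2 hp1
      linarith
  calc ∑ p ∈ P, (LM (NS Φ (Δ p)) p - LM N₀ p) ≤ ∑ p ∈ P, (ε + if p ∈ bad then C else 0) :=
        sum_le_sum h1
    _ = ε * P.card + bad.card * C := by
      rw [sum_add_distrib, sum_const, nsmul_eq_mul, ← sum_filter, sum_const, nsmul_eq_mul]
      have : P.filter (fun p => p ∈ bad) = bad := by
        ext p
        simp only [mem_filter]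
        exact ⟨fun h' => h'.2, fun h' => ⟨hbP h', h'⟩⟩
      rw [this, mul_comm ε]
    _ ≤ ε * P.card + m := by
      have h7 : (bad.card : ℝ) * C ≤ n * C :=
        mul_le_mul_of_nonneg_right (by exact_mod_cast hbad.le) hC
      linarith

end Pool.Agent.Helper73.KZ
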