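import Pool.Agent.Helper73.KZ.ULT

/-!
Subgroups of `L × F` which meet the finite group `F` trivially and their hulls (MP_7a8f48_an).
-/

open Finset

namespace Pool.Agent.Helper73.KZ

/-- subgroups which meet the second factor trivially -/
def Typ {L X : Type} [AddCommGroup L] [AddCommGroup X] (Δ : AddSubgroup (L × X)) : Prop :=
  ∀ x : X, ((0 : L), x) ∈ Δ → x = 0

/-- `x ↦ x / q` -/
noncomputable def iz (q : ℕ) : ZMod q →+ QZ := ZMod.lift q ⟨zmultiplesHom QZ (((1 : ℚ) / q : ℚ) : QZ), by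
  simp only [zmultiplesHom_apply, natCast_zsmul]
  rcases Nat.eq_zero_or_pos q with h | h
  · subst h
    simp
  · rw [← AddCircle.coe_nsmul, AddCircle.coe_eq_zero_iff]
    refine ⟨1, ?_⟩
    have : (q : ℚ) ≠ 0 := by positivity
    simp
    field_simp⟩

theorem iz_inj (q : ℕ) (hq : 1 ≤ q) (x : ZMod q) (hx : iz q x = 0) : x = 0 := by
  have : Function.Injective (iz q) := by
    unfold iz
    rw [ZMod.lift_injective]
    intro m hm
    simp only [zmultiplesHom_apply] at hm
    have h1 := AddCircle.addOrderOf_period_div (𝕜 := ℚ) (p := 1) (n := q) (by omega)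
    have h2 : ((addOrderOf (((1 : ℚ) / q : ℚ) : QZ) : ℕ) : ℤ) ∣ m :=
      addOrderOf_dvd_iff_zsmul_eq_zero.mpr hm
    rw [h1] at h2
    exact (ZMod.intCast_zmod_eq_zero_iff_dvd m q).mpr h2
  exact this (by rw [hx, map_zero])

/-- the homomorphism with the coordinates `t` -/
noncomputable def hm {s r : ℕ} (q : ℕ) (t : Fin s → Fin r → QZ) (j : Fin r)
    (u : (Fin s → ℤ) × (Fin r → ZMod q)) : QZ := (∑ i, u.1 i • t i j) + iz q (u.2 j)

/-- its kernel -/
noncomputable def Kt {s r : ℕ} (q : ℕ) (t : Fin s → Fin r → QZ) :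
    AddSubgroup ((Fin s → ℤ) × (Fin r → ZMod q)) where
  carrier := {u | ∀ j, hm q t j u = 0}
  zero_mem' := by
    intro j
    simp [hm]
  add_mem' := by
    intro u v hu hv j
    have h1 : hm q t j (u + v) = hm q t j u + hm q t j v := by
      simp only [hm, Prod.fst_add, Prod.snd_add, Pi.add_apply, add_smul, sum_add_distrib, map_add]
      abel
    rw [h1, hu j, hv j, add_zero]
  neg_mem' := by
    intro u hu j
    have h1 : hm q t j (-u) = - hm q t j u := by
      simp only [hm, Prod.fst_neg, Prod.snd_neg, Pi.neg_apply, neg_smul, sum_neg_distrib, map_neg]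
      abel
    rw [h1, hu j, neg_zero]

theorem mem_Kt {s r q : ℕ} {t : Fin s → Fin r → QZ} {u : (Fin s → ℤ) × (Fin r → ZMod q)} :
    u ∈ Kt q t ↔ ∀ j, hm q t j u = 0 := Iff.rfl

theorem Kt_typ {s r q : ℕ} (hq : 1 ≤ q) (t : Fin s → Fin r → QZ) : Typ (Kt q t) := by
  intro x hx
  funext j
  have h1 := mem_Kt.mp hx j
  simp only [hm, Pi.zero_apply, zero_smul, sum_const_zero, zero_add] at h1
  exact iz_inj q hq _ h1

/-- the kernels of two homomorphisms and of an affine combination of them -/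
theorem Kt_comb {s r q : ℕ} (t t' : Fin s → Fin r → QZ) (α : ℤ) :
    Kt q t ⊓ Kt q t' ≤ Kt q fun i j => t i j - α • (t i j - t' i j) := by
  intro u hu j
  have h1 := mem_Kt.mp hu.1 j
  have h2 := mem_Kt.mp hu.2 j
  simp only [hm] at h1 h2 ⊢
  have h3 : ∑ i, u.1 i • (t i j - α • (t i j - t' i j)) =
      (∑ i, u.1 i • t i j) - α • ((∑ i, u.1 i • t i j) - ∑ i, u.1 i • t' i j) := by
    rw [smul_sub, smul_sum, smul_sum, ← sum_sub_distrib, ← sum_sub_distrib]
    refine sum_congr rfl fun i _ => ?_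
    rw [smul_sub, smul_sub, smul_sub, smul_comm α (u.1 i), smul_comm α (u.1 i)]
  rw [h3]
  have h4 : (∑ i, u.1 i • t i j) = - iz q (u.2 j) := eq_neg_of_add_eq_zero_left h1
  have h5 : (∑ i, u.1 i • t' i j) = - iz q (u.2 j) := eq_neg_of_add_eq_zero_left h2
  rw [h4, h5]
  simp

/-- every such subgroup is contained in the kernel of a homomorphism with coordinates of
`q`-power order -/
theorem hull {s r q : ℕ} (hq : q.Prime) (Δ : AddSubgroup ((Fin s → ℤ) × (Fin r → ZMod q)))
    (hΔ : Typ Δ) : ∃ t : Fin s → Fin r → QZ, (∀ i j, ∃ e : ℕ, q ^ e • t i j = 0) ∧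
      Δ ≤ Kt q t := by
  classical
  -- the homomorphism from the torsion group to the quotient
  let f : (Fin r → ZMod q) →+ ((Fin s → ℤ) × (Fin r → ZMod q)) ⧸ Δ :=
    (QuotientAddGroup.mk' Δ).comp (AddMonoidHom.inr _ _)
  have hf : Function.Injective f := by
    rw [injective_iff_map_eq_zero]
    intro x hx
    refine hΔ x ?_
    exact (QuotientAddGroup.eq_zero_iff _).mp hx
  have h1 : ∀ j : Fin r, ∃ H : (((Fin s → ℤ) × (Fin r → ZMod q)) ⧸ Δ) →+ QZ,
      ∀ w : Fin r → ZMod q, H (f w) = iz q (w j) := by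
    intro j
    obtain ⟨H, hH⟩ := CharacterModule.dual_surjective_of_injective (R := ℤ)
      f.toIntLinearMap hf ((iz q).comp (Pi.evalAddMonoidHom (fun _ : Fin r => ZMod q) j))
    refine ⟨H, fun w => ?_⟩
    have := DFunLike.congr_fun hH w
    exact this
  choose H hH using h1
  let g : Fin r → ((Fin s → ℤ) × (Fin r → ZMod q)) →+ QZ := fun j =>
    (H j).comp (QuotientAddGroup.mk' Δ)
  have hg0 : ∀ j, ∀ u ∈ Δ, g j u = 0 := by
    intro j u hu
    show H j (QuotientAddGroup.mk' Δ u) = 0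
    have : QuotientAddGroup.mk' Δ u = 0 := (QuotientAddGroup.eq_zero_iff _).mpr hu
    rw [this, map_zero]
  let t₀ : Fin s → Fin r → QZ := fun i j => g j (Pi.single i 1, 0)
  have hg : ∀ j u, g j u = (∑ i, u.1 i • t₀ i j) + iz q (u.2 j) := by
    intro j u
    have h2 : u = (∑ i, u.1 i • ((Pi.single i 1, 0) : (Fin s → ℤ) × (Fin r → ZMod q))) +
        (0, u.2) := by
      refine Prod.ext ?_ ?_
      · rw [Prod.fst_add, Prod.fst_sum]
        funext i'
        simp [Finset.sum_apply, Pi.single_apply]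
      · rw [Prod.snd_add, Prod.snd_sum]
        simp
    have h3 : g j (0, u.2) = iz q (u.2 j) := hH j u.2
    conv_lhs => rw [h2]
    rw [map_add, map_sum, h3]
    simp only [map_zsmul]
    rfl
  choose n hn hn0 using fun i j => QZ_torsion (t₀ i j)
  let N : ℕ := ∏ i, ∏ j, n i j
  have hN : 1 ≤ N := Nat.one_le_iff_ne_zero.mpr
    (prod_ne_zero_iff.mpr fun i _ => prod_ne_zero_iff.mpr fun j _ => by
      have := hn i j
      omega)
  have hN0 : ∀ i j, N • t₀ i j = 0 := by
    intro i j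
    have h4 : n i j ∣ N := (dvd_prod_of_mem (fun j => n i j) (mem_univ j)).trans
      (dvd_prod_of_mem (fun i => ∏ j, n i j) (mem_univ i))
    obtain ⟨c, hc⟩ := h4
    rw [hc, mul_comm, mul_smul, hn0, smul_zero]
  obtain ⟨a, n', hn', hNe⟩ := Nat.exists_eq_pow_mul_and_not_dvd (n := N) (by omega) q hq.ne_one
  have hco : IsCoprime (n' : ℤ) (q : ℤ) := by
    rw [Int.isCoprime_iff_gcd_eq_one]
    exact (Nat.coprime_comm.mp ((Nat.Prime.coprime_iff_not_dvd hq).mpr hn'))
  obtain ⟨x, y, hxy⟩ := hco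
  refine ⟨fun i j => (x * n') • t₀ i j, ?_, ?_⟩
  · intro i j
    refine ⟨a, ?_⟩
    have h5 : (q ^ a) • ((x * n') • t₀ i j) = x • (N • t₀ i j) := by
      rw [← natCast_zsmul, ← natCast_zsmul, smul_smul, smul_smul, hNe]
      congr 1
      push_cast
      ring
    rw [h5, hN0, smul_zero]
  · intro u hu j
    have h6 := hg0 j u hu
    rw [hg] at h6
    have h7 : (x * n') • iz q (u.2 j) = iz q (u.2 j) := by
      rw [← map_zsmul]
      congr 1
      have h8 : x * n' = 1 - y * q := by linarith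
      rw [h8, sub_smul, one_smul, mul_smul]
      have h9 : (q : ℤ) • u.2 j = 0 := by
        rw [zsmul_eq_mul]
        simp
      rw [h9, smul_zero, sub_zero]
    simp only [hm]
    have h10 : ∑ i, u.1 i • ((x * n') • t₀ i j) = (x * n') • ∑ i, u.1 i • t₀ i j := by
      rw [smul_sum]
      refine sum_congr rfl fun i _ => ?_
      rw [smul_comm]
    rw [h10, ← h7, ← smul_add, h6, smul_zero]

/-! ### the exponent of the order -/

/-- the exponent of the order of an element of `q`-power order -/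
noncomputable def exq (q : ℕ) (x : QZ) : ℕ := sInf {e : ℕ | q ^ e • x = 0}

theorem exq_spec {q : ℕ} {x : QZ} (h : ∃ e : ℕ, q ^ e • x = 0) : q ^ exq q x • x = 0 :=
  Nat.sInf_mem (s := {e : ℕ | q ^ e • x = 0}) h

theorem exq_le {q : ℕ} {x : QZ} {e : ℕ} (h : q ^ e • x = 0) : exq q x ≤ e := Nat.sInf_le h

theorem exq_neg (q : ℕ) (x : QZ) : exq q (-x) = exq q x := by
  unfold exq
  congr 1
  ext e
  simp [smul_neg]

theorem pow_smul_of_le {q : ℕ} {x : QZ} {a b : ℕ} (hab : a ≤ b) (h : q ^ a • x = 0) :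
    q ^ b • x = 0 := by
  obtain ⟨c, rfl⟩ := Nat.exists_eq_add_of_le hab
  rw [pow_add, mul_comm, mul_smul, h, smul_zero]

theorem exq_add {q : ℕ} {x y : QZ} (hx : ∃ e : ℕ, q ^ e • x = 0) (hy : ∃ e : ℕ, q ^ e • y = 0) :
    exq q (x + y) ≤ max (exq q x) (exq q y) := by
  refine exq_le ?_
  rw [smul_add, pow_smul_of_le (le_max_left _ _) (exq_spec hx),
    pow_smul_of_le (le_max_right _ _) (exq_spec hy), add_zero]

theorem exq_cyc {q : ℕ} (hq : q.Prime) {x y : QZ} (hx : ∃ e : ℕ, q ^ e • x = 0)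
    (hy : ∃ e : ℕ, q ^ e • y = 0) (h : exq q x ≤ exq q y) : ∃ α : ℤ, x = α • y := by
  rcases Nat.eq_zero_or_pos (exq q y) with h0 | hpos
  · have h1 : exq q x = 0 := by omega
    have h2 := exq_spec hx
    rw [h1, pow_zero, one_smul] at h2
    exact ⟨0, by rw [h2, zero_smul]⟩
  · obtain ⟨n, hn⟩ : ∃ n, exq q y = n + 1 := ⟨exq q y - 1, by omega⟩
    have : Fact q.Prime := ⟨hq⟩
    have h3 : ¬ q ^ n • y = 0 := fun h' => by
      have := exq_le h'
      omega
    have h4 : q ^ (n + 1) • y = 0 := by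
      rw [← hn]
      exact exq_spec hy
    have h5 := addOrderOf_eq_prime_pow h3 h4
    refine QZ_cyc (q ^ (n + 1)) (Nat.one_le_iff_ne_zero.mpr (pow_ne_zero _ hq.ne_zero)) x y ?_ h5
    exact pow_smul_of_le (h.trans hn.le) (exq_spec hx)

end Pool.Agent.Helper73.KZ
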