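import Mathlib

/-!
An ultrametric selection lemma and its use for points of `ℚ / ℤ` (MP_7a8f48_an).
-/

open Finset

namespace Pool.Agent.Helper73.KZ

/-- In a large finite ultrametric space there are a subset `A` and a point `b` of it such that for
each point of `A` the point `b` is at least as near as all the other points of `A`. -/
theorem ult_aux {ι : Type} [DecidableEq ι] (d : ι → ι → ℕ) (h0 : ∀ i, d i i = 0) (hs : ∀ i j, d i j = d j i)
    (hu : ∀ i j k, d i k ≤ max (d i j) (d j k)) (M : ℕ) (hM : 1 ≤ M) (j : ℕ) :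
    ∀ F : Finset ι, M ^ j ≤ F.card → ∃ A ⊆ F, (A.card = M ∨ A.card = j + 1) ∧
      ∃ b ∈ A, ∀ k ∈ A, ∀ l ∈ A, k ≠ l → d k b ≤ d k l := by
  induction j with
  | zero =>
    intro F hF
    have h1 : F.Nonempty := by
      rw [← card_pos]
      simpa using hF
    obtain ⟨b, hb⟩ := h1
    refine ⟨{b}, by simpa using hb, Or.inr (by simp), b, by simp, ?_⟩
    intro k hk l hl hkl
    simp only [mem_singleton] at hk hl
    exact absurd (hk.trans hl.symm) hkl
  | succ j ih =>
    intro F hF
    have hne : F.Nonempty := by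
      rw [← card_pos]
      exact lt_of_lt_of_le (pow_pos (by omega) _) hF
    have hne2 : (F ×ˢ F).Nonempty := hne.product hne
    obtain ⟨z, hz, hmax⟩ := exists_max_image (F ×ˢ F) (fun z => d z.1 z.2) hne2
    have hz' := mem_product.mp hz
    set D := d z.1 z.2 with hD
    have hle : ∀ k ∈ F, ∀ l ∈ F, d k l ≤ D := fun k hk l hl =>
      hmax (k, l) (mem_product.mpr ⟨hk, hl⟩)
    rcases Nat.eq_zero_or_pos D with hD0 | hDpos
    · have h2 : M ≤ F.card := le_trans (by
        calc M = M ^ 1 := (pow_one M).symm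
          _ ≤ M ^ (j + 1) := Nat.pow_le_pow_right (by omega) (by omega)) hF
      obtain ⟨A, hA, hAc⟩ := exists_subset_card_eq h2
      have h3 : A.Nonempty := by
        rw [← card_pos]
        omega
      obtain ⟨b, hb⟩ := h3
      refine ⟨A, hA, Or.inl hAc, b, hb, ?_⟩
      intro k hk l hl _
      have := hle k (hA hk) b (hA hb)
      omega
    · classical
      let cl : ι → Finset ι := fun k => F.filter fun l => d k l < D
      have hcl : ∀ k ∈ F, ∀ l ∈ F, d k l < D → cl k = cl l := by
        intro k hk l hl hkl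
        ext x
        simp only [cl, mem_filter]
        constructor
        · rintro ⟨hx, hkx⟩
          refine ⟨hx, lt_of_le_of_lt (hu l k x) (max_lt (by rw [hs]; exact hkl) hkx)⟩
        · rintro ⟨hx, hlx⟩
          exact ⟨hx, lt_of_le_of_lt (hu k l x) (max_lt hkl hlx)⟩
      by_cases hc : M ≤ (F.image cl).card
      · obtain ⟨R, hR, hRc⟩ := exists_subset_card_eq hc
        have h4 : ∀ c : Finset ι, ∃ k, c ∈ R → k ∈ F ∧ cl k = c := by
          intro c
          by_cases h : c ∈ R
          · obtain ⟨k, hk, hk2⟩ := mem_image.mp (hR h)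
            exact ⟨k, fun _ => ⟨hk, hk2⟩⟩
          · exact ⟨z.1, fun h' => absurd h' h⟩
        choose g hg using h4
        have h5 : ∀ c ∈ R, ∀ c' ∈ R, g c = g c' → c = c' := by
          intro c hc' c' hc'' h
          rw [← (hg c hc').2, ← (hg c' hc'').2, h]
        have h6 : (R.image g).card = M := by
          rw [card_image_of_injOn, hRc]
          intro c hc' c' hc'' h
          exact h5 c hc' c' hc'' h
        have h7 : (R.image g).Nonempty := by
          rw [← card_pos]
          omega
        obtain ⟨b, hb⟩ := h7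
        have h8 : R.image g ⊆ F := by
          intro k hk
          obtain ⟨c, hc', rfl⟩ := mem_image.mp hk
          exact (hg c hc').1
        refine ⟨R.image g, h8, Or.inl h6, b, hb, ?_⟩
        intro k hk l hl hkl
        refine le_trans (hle k (h8 hk) b (h8 hb)) ?_
        by_contra hlt
        push Not at hlt
        obtain ⟨c, hc', rfl⟩ := mem_image.mp hk
        obtain ⟨c', hc'', rfl⟩ := mem_image.mp hl
        have h9 := hcl _ (h8 hk) _ (h8 hl) hlt
        rw [(hg c hc').2, (hg c' hc'').2] at h9
        exact hkl (by rw [h9])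
      · push Not at hc
        have h10 : ∃ c ∈ F.image cl, M ^ j ≤ (F.filter fun k => cl k = c).card := by
          apply exists_le_card_fiber_of_mul_le_card_of_maps_to
            (fun k hk => mem_image_of_mem cl hk) (hne.image cl)
          calc (F.image cl).card * M ^ j ≤ M * M ^ j := Nat.mul_le_mul_right _ hc.le
            _ = M ^ (j + 1) := by ring
            _ ≤ F.card := hF
        obtain ⟨c, hc1, hc2⟩ := h10
        have h11 : ∀ k ∈ F.filter fun k => cl k = c, ∀ l ∈ F.filter fun k => cl k = c,
            d k l < D := by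
          intro k hk l hl
          rw [mem_filter] at hk hl
          have : l ∈ cl l := by
            simp only [cl, mem_filter]
            exact ⟨hl.1, by rw [h0]; exact hDpos⟩
          rw [hl.2, ← hk.2] at this
          exact (mem_filter.mp this).2
        have h12 : ∃ k₀ ∈ F, k₀ ∉ F.filter fun k => cl k = c := by
          by_contra hcon
          push Not at hcon
          exact lt_irrefl _ (h11 z.1 (hcon _ hz'.1) z.2 (hcon _ hz'.2))
        obtain ⟨k₀, hk0, hk0'⟩ := h12
        have h13 : ∀ l ∈ F.filter fun k => cl k = c, d k₀ l = D := by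
          intro l hl
          refine le_antisymm (hle _ hk0 _ (mem_filter.mp hl).1) ?_
          by_contra hlt
          push Not at hlt
          have := hcl _ hk0 _ (mem_filter.mp hl).1 hlt
          exact hk0' (mem_filter.mpr ⟨hk0, this.trans (mem_filter.mp hl).2⟩)
        obtain ⟨A, hA, hAc, b, hb, hAb⟩ := ih _ hc2
        rcases hAc with hAc | hAc
        · exact ⟨A, hA.trans (filter_subset _ _), Or.inl hAc, b, hb, hAb⟩
        · refine ⟨insert k₀ A, ?_, Or.inr ?_, b, mem_insert_of_mem hb, ?_⟩
          · intro x hx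
            rcases mem_insert.mp hx with rfl | hx
            · exact hk0
            · exact (mem_filter.mp (hA hx)).1
          · rw [card_insert_of_notMem fun h => hk0' (hA h), hAc]
          · intro k hk l hl hkl
            rcases mem_insert.mp hk with hk1 | hk1
            · rcases mem_insert.mp hl with hl1 | hl1
              · exact absurd (hk1.trans hl1.symm) hkl
              · rw [hk1, h13 _ (hA hb), h13 _ (hA hl1)]
            · rcases mem_insert.mp hl with hl1 | hl1
              · rw [hl1, hs k k₀, h13 _ (hA hk1)]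
                exact hle _ (mem_filter.mp (hA hk1)).1 _ (mem_filter.mp (hA hb)).1
              · exact hAb k hk1 l hl1 hkl

theorem ult {ι : Type} [DecidableEq ι] (d : ι → ι → ℕ) (h0 : ∀ i, d i i = 0) (hs : ∀ i j, d i j = d j i)
    (hu : ∀ i j k, d i k ≤ max (d i j) (d j k)) (K : ℕ) (hK : 1 ≤ K) (F : Finset ι)
    (hF : K ^ K ≤ F.card) : ∃ A ⊆ F, A.card = K ∧
      ∃ b ∈ A, ∀ k ∈ A, ∀ l ∈ A, k ≠ l → d k b ≤ d k l := by
  obtain ⟨A, hA, hAc, h⟩ := ult_aux d h0 hs hu K hK (K - 1) F
    (le_trans (Nat.pow_le_pow_right hK (by omega)) hF)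
  refine ⟨A, hA, ?_, h⟩
  rcases hAc with h1 | h1
  · exact h1
  · omega

/-- the target group -/
abbrev QZ : Type := AddCircle (1 : ℚ)

theorem QZ_torsion (x : QZ) : ∃ n : ℕ, 1 ≤ n ∧ n • x = 0 := by
  induction x using QuotientAddGroup.induction_on with
  | H x =>
    refine ⟨x.den, x.pos, ?_⟩
    have : (x.den : ℕ) • (x : QZ) = ((x.den * x : ℚ) : QZ) := by
      rw [← nsmul_eq_mul, AddCircle.coe_nsmul]
    refine this.trans ?_
    rw [mul_comm, Rat.mul_den_eq_num, AddCircle.coe_eq_zero_iff]
    exact ⟨x.num, by simp⟩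

/-- cyclic groups of elements of given order -/
theorem QZ_cyc (n : ℕ) (hn : 1 ≤ n) (x y : QZ) (hx : n • x = 0) (hy : addOrderOf y = n) :
    ∃ α : ℤ, x = α • y := by
  obtain ⟨m, -, hm, hmy⟩ := (AddCircle.addOrderOf_eq_pos_iff (p := (1 : ℚ)) hn).mp hy
  have hx' : ∃ k : ℤ, x = (((k : ℚ) / (n : ℚ) : ℚ) : QZ) := by
    induction x using QuotientAddGroup.induction_on with
    | H x =>
      have h1 : (n : ℕ) • (x : QZ) = ((n * x : ℚ) : QZ) := by
        rw [← nsmul_eq_mul, AddCircle.coe_nsmul]
      have h2 : ((n * x : ℚ) : QZ) = 0 := by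
        rw [← h1]
        exact hx
      rw [AddCircle.coe_eq_zero_iff] at h2
      obtain ⟨k, hk⟩ := h2
      refine ⟨k, ?_⟩
      have hn' : (n : ℚ) ≠ 0 := by positivity
      have : x = (k : ℚ) / (n : ℚ) := by
        field_simp
        simp at hk
        linarith [hk]
      change (x : QZ) = _
      rw [this]
  obtain ⟨k, hk⟩ := hx'
  -- inverse of `m` modulo `n`
  have hco : IsCoprime (m : ℤ) (n : ℤ) := by
    rw [Int.isCoprime_iff_gcd_eq_one]
    simpa using hm
  obtain ⟨a, b, hab⟩ := hco
  refine ⟨k * a, ?_⟩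
  rw [hk, ← hmy]
  have h3 : ((k * a : ℤ)) • (((m : ℚ) / (n : ℚ) * 1 : ℚ) : QZ) =
      ((((k * a : ℤ) : ℚ) * ((m : ℚ) / (n : ℚ)) : ℚ) : QZ) := by
    rw [mul_one, ← zsmul_eq_mul, AddCircle.coe_zsmul]
  rw [h3, ← sub_eq_zero, ← AddCircle.coe_sub, AddCircle.coe_eq_zero_iff]
  refine ⟨k * b, ?_⟩
  have hn' : (n : ℚ) ≠ 0 := by positivity
  have hab' : (a : ℚ) * m + b * n = 1 := by exact_mod_cast hab
  simp only [zsmul_eq_mul, mul_one]
  push_cast
  field_simp
  linear_combination (k : ℚ) * hab'

end Pool.Agent.Helper73.KZ
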